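import Pool.Agent.H181R4.GL.Calc

/-!
The modal logic of best action in finite game trees has a complete, decidable calculus: validity is
decidable, with an explicit bound on the size of the game trees that have to be looked at.
-/

set_option autoImplicit false

namespace Pool.Agent.Results.MP_b6c00a_lc.ValidityDecidable

open Pool.Agent.H181R4.GL

/-- For every number `m > 0` of players: the numbering of formulas by numbers is injective; the set
of formulas true in all game trees with at most `bound m (φ.len + 2)` nodes is primitive recursive;
the theorems of the calculus which has these formulas as axioms and modus ponens, necessitation and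
uniform substitution as rules are exactly the formulas valid in all finite game trees; and validity
in all finite game trees is decidable (hence the valid formulas are recursively enumerable). -/
theorem result (m : ℕ) (_hm : 0 < m) :
    Function.Injective (Form.code (m := m)) ∧
    PrimrecPred (fun n : ℕ => ∃ φ : Form m, φ.code = n ∧ SmallValid φ) ∧
    (∀ φ : Form m, Thm SmallValid φ ↔ Valid φ) ∧
    (∀ φ : Form m, Valid φ ↔ SmallValid φ) ∧
    ComputablePred (fun n : ℕ => ∃ φ : Form m, φ.code = n ∧ Valid φ) ∧
    REPred (fun n : ℕ => ∃ φ : Form m, φ.code = n ∧ Valid φ) :=
  ⟨fun _ _ h => Form.code_inj h, smallValid_primrec m, thm_iff, valid_iff_small,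
    (valid_primrec m).computablePred, (valid_primrec m).computablePred.to_re⟩

end Pool.Agent.Results.MP_b6c00a_lc.ValidityDecidable
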